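import Mathlib

set_option autoImplicit false

namespace Pool.Agent.Lib.MP_e4c5f9_co

open Finset

/-- local vertex type: three pairs; `true` is the x side, `false` the y side -/
abbrev L : Type := Fin 3 × Bool

/-- blocks: `a` blocks of three pendant edges and `b` blocks K_{3,3} -/
abbrev I (a b : ℕ) : Type := Fin a ⊕ Fin b

abbrev V (a b : ℕ) : Type := I a b × L

variable {a b : ℕ}

def adj (v w : V a b) : Prop :=
  (v.1 = w.1 ∧ v.2.2 ≠ w.2.2 ∧ (v.1.isRight = true ∨ v.2.1 = w.2.1)) ∨
    (v.2.2 = true ∧ w.2.2 = true ∧ v.1.isLeft ≠ w.1.isLeft)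

def G (a b : ℕ) : SimpleGraph (V a b) where
  Adj := adj
  symm := ⟨by
    rintro v w (⟨h1, h2, h3⟩ | ⟨h1, h2, h3⟩)
    · refine Or.inl ⟨h1.symm, h2.symm, ?_⟩
      rcases h3 with h3 | h3
      · exact Or.inl (h1 ▸ h3)
      · exact Or.inr h3.symm
    · exact Or.inr ⟨h2, h1, h3.symm⟩⟩
  loopless := ⟨by
    rintro v (⟨_, h2, _⟩ | ⟨_, _, h3⟩)
    · exact h2 rfl
    · exact h3 rfl⟩

/-- slice of a vertex set in one block -/
def slice (s : Finset (V a b)) (i : I a b) : Finset L := univ.filter (fun l => (i, l) ∈ s)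

def unslice (f : I a b → Finset L) : Finset (V a b) := univ.filter (fun v => v.2 ∈ f v.1)

def sliceEquiv (a b : ℕ) : Finset (V a b) ≃ (I a b → Finset L) where
  toFun := slice
  invFun := unslice
  left_inv := by
    intro s; ext v; simp [slice, unslice]
  right_inv := by
    intro f; funext i; ext l; simp [slice, unslice]

lemma card_eq_sum_slice (s : Finset (V a b)) : s.card = ∑ i : I a b, (slice s i).card := by
  rw [Finset.card_eq_sum_card_fiberwise (f := Prod.fst) (t := univ) (by simp)]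
  refine Finset.sum_congr rfl fun i _ => ?_
  symm
  refine Finset.card_bij (fun l _ => (i, l)) ?_ ?_ ?_
  · intro l hl; simpa [slice] using hl
  · intro c _ d _ h; simpa using h
  · rintro ⟨j, l⟩ h
    simp only [mem_filter] at h
    obtain ⟨h1, h2⟩ := h
    subst h2
    exact ⟨l, by simpa [slice] using h1, rfl⟩

/-- product formula for block-wise conditions -/
lemma weight_prod (M : ℕ) (Q : I a b → Finset L → Prop) [∀ i, DecidablePred (Q i)]
    [DecidablePred (fun s : Finset (V a b) => ∀ i, Q i (slice s i))] :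
    (∑ s : Finset (V a b), if (∀ i, Q i (slice s i)) then M ^ s.card else 0) =
      ∏ i : I a b, ∑ t : Finset L, if Q i t then M ^ t.card else 0 := by
  rw [Finset.prod_univ_sum]
  simp only [Fintype.piFinset_univ]
  refine Fintype.sum_equiv (sliceEquiv a b) _ _ fun s => ?_
  have : ∀ i, sliceEquiv a b s i = slice s i := fun i => rfl
  simp only [this]
  by_cases h : ∀ i, Q i (slice s i)
  · rw [if_pos h, card_eq_sum_slice, ← Finset.prod_pow_eq_pow_sum]
    refine Finset.prod_congr rfl fun i _ => ?_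
    rw [if_pos (h i)]
  · rw [if_neg h]
    push Not at h
    obtain ⟨i, hi⟩ := h
    symm
    exact Finset.prod_eq_zero (mem_univ i) (if_neg hi)

def locA (t : Finset L) : Prop := ∀ l ∈ t, ∀ l' ∈ t, ¬ (l.2 ≠ l'.2 ∧ l.1 = l'.1)
def locB (t : Finset L) : Prop := ∀ l ∈ t, ∀ l' ∈ t, l.2 = l'.2
def noX (t : Finset L) : Prop := ∀ l ∈ t, l.2 = false

instance : DecidablePred locA := fun t => by unfold locA; infer_instance
instance : DecidablePred locB := fun t => by unfold locB; infer_instance
instance : DecidablePred noX := fun t => by unfold noX; infer_instance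

def QA : I a b → Finset L → Prop
  | Sum.inl _ => locA
  | Sum.inr _ => noX
def QB : I a b → Finset L → Prop
  | Sum.inl _ => noX
  | Sum.inr _ => locB
def Q0 : I a b → Finset L → Prop := fun _ => noX

lemma mem_slice (s : Finset (V a b)) (i : I a b) (l : L) : l ∈ slice s i ↔ (i, l) ∈ s := by
  simp [slice]

lemma indep_iff (s : Finset (V a b)) :
    (G a b).IsIndepSet (s : Set (V a b)) ↔ ∀ v ∈ s, ∀ w ∈ s, ¬ adj v w := by
  constructor
  · intro h v hv w hw hadj
    have hne : v ≠ w := (show (G a b).Adj v w from hadj).ne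
    exact h hv hw hne hadj
  · intro h v hv w hw _ hadj
    exact h v hv w hw hadj

lemma PA_indep (s : Finset (V a b)) (h : ∀ i, QA i (slice s i)) : (G a b).IsIndepSet (s : Set (V a b)) := by
  rw [indep_iff]
  rintro ⟨i, l⟩ hv ⟨i', l'⟩ hw (⟨h1, h2, h3⟩ | ⟨h1, h2, h3⟩)
  · simp only at h1 h2 h3
    subst h1
    have hi := h i
    rcases i with c | d
    · simp only [Sum.isRight_inl, Bool.false_eq_true, false_or] at h3
      exact hi l ((mem_slice _ _ _).2 hv) l' ((mem_slice _ _ _).2 hw) ⟨h2, h3⟩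
    · have e1 := hi l ((mem_slice _ _ _).2 hv)
      have e2 := hi l' ((mem_slice _ _ _).2 hw)
      exact h2 (e1.trans e2.symm)
  · simp only at h1 h2 h3
    rcases i with c | d <;> rcases i' with c' | d'
    · simp at h3
    · have e2 := h (Sum.inr d') l' ((mem_slice _ _ _).2 hw)
      rw [h2] at e2; simp at e2
    · have e2 := h (Sum.inr d) l ((mem_slice _ _ _).2 hv)
      rw [h1] at e2; simp at e2
    · simp at h3

lemma PB_indep (s : Finset (V a b)) (h : ∀ i, QB i (slice s i)) : (G a b).IsIndepSet (s : Set (V a b)) := by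
  rw [indep_iff]
  rintro ⟨i, l⟩ hv ⟨i', l'⟩ hw (⟨h1, h2, h3⟩ | ⟨h1, h2, h3⟩)
  · simp only at h1 h2 h3
    subst h1
    have hi := h i
    rcases i with c | d
    · have e1 := hi l ((mem_slice _ _ _).2 hv)
      have e2 := hi l' ((mem_slice _ _ _).2 hw)
      exact h2 (e1.trans e2.symm)
    · exact h2 (hi l ((mem_slice _ _ _).2 hv) l' ((mem_slice _ _ _).2 hw))
  · simp only at h1 h2 h3
    rcases i with c | d <;> rcases i' with c' | d'
    · simp at h3
    · have e2 := h (Sum.inl c) l ((mem_slice _ _ _).2 hv)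
      rw [h1] at e2; simp at e2
    · have e2 := h (Sum.inl c') l' ((mem_slice _ _ _).2 hw)
      rw [h2] at e2; simp at e2
    · simp at h3

lemma indep_cases (s : Finset (V a b)) (h : (G a b).IsIndepSet (s : Set (V a b))) :
    (∀ i, QA i (slice s i)) ∨ (∀ i, QB i (slice s i)) := by
  rw [indep_iff] at h
  by_cases hx : ∃ c : Fin a, ∃ l : L, (Sum.inl c, l) ∈ s ∧ l.2 = true
  · left
    obtain ⟨c, l, hl, hl2⟩ := hx
    rintro (c' | d)
    · intro l1 h1 l2 h2 ⟨h3, h4⟩
      exact h _ ((mem_slice _ _ _).1 h1) _ ((mem_slice _ _ _).1 h2) (Or.inl ⟨rfl, h3, Or.inr h4⟩)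
    · intro l1 h1
      by_contra hne
      have hne' : l1.2 = true := by simpa using hne
      exact h _ hl _ ((mem_slice _ _ _).1 h1) (Or.inr ⟨hl2, hne', by simp⟩)
  · right
    push Not at hx
    rintro (c' | d)
    · intro l1 h1
      have := hx c' l1 ((mem_slice _ _ _).1 h1)
      simpa using this
    · intro l1 h1 l2 h2
      by_contra hne
      exact h _ ((mem_slice _ _ _).1 h1) _ ((mem_slice _ _ _).1 h2)
        (Or.inl ⟨rfl, hne, Or.inl (by simp)⟩)

lemma both_iff (s : Finset (V a b)) :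
    (∀ i, Q0 i (slice s i)) ↔ (∀ i, QA i (slice s i)) ∧ (∀ i, QB i (slice s i)) := by
  constructor
  · intro h
    constructor
    · rintro (c | d)
      · intro l1 h1 l2 h2 ⟨h3, _⟩
        exact h3 ((h _ l1 h1).trans (h _ l2 h2).symm)
      · exact h _
    · rintro (c | d)
      · exact h _
      · intro l1 h1 l2 h2
        exact (h _ l1 h1).trans (h _ l2 h2).symm
  · rintro ⟨h1, h2⟩ (c | d)
    · exact h2 (Sum.inl c)
    · exact h1 (Sum.inr d)

def M : ℕ := 2 ^ 1604

lemma sumA : (∑ t : Finset L, if locA t then M ^ t.card else 0) = (1 + 2 * M) ^ 3 := by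
  decide +kernel
lemma sumB : (∑ t : Finset L, if locB t then M ^ t.card else 0) = 2 * (1 + M) ^ 3 - 1 := by
  decide +kernel
lemma sum0 : (∑ t : Finset L, if noX t then M ^ t.card else 0) = (1 + M) ^ 3 := by
  decide +kernel

def val (a b : ℕ) : ℕ := ((1 + 2 * M) ^ 3) ^ a * ((1 + M) ^ 3) ^ b +
  ((1 + M) ^ 3) ^ a * (2 * (1 + M) ^ 3 - 1) ^ b - ((1 + M) ^ 3) ^ a * ((1 + M) ^ 3) ^ b

open Classical in
lemma total : (∑ s : Finset (V a b), if (G a b).IsIndepSet (s : Set (V a b)) then M ^ s.card else 0) = val a b := by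
  have hA := weight_prod (a := a) (b := b) M QA
  have hB := weight_prod (a := a) (b := b) M QB
  have h0 := weight_prod (a := a) (b := b) M Q0
  rw [Fintype.prod_sum_type] at hA hB h0
  have pA1 : (∏ c : Fin a, ∑ t : Finset L, if QA (Sum.inl c : I a b) t then M ^ t.card else 0) =
      ((1 + 2 * M) ^ 3) ^ a := by
    rw [Finset.prod_congr rfl (g := fun _ => (1 + 2 * M) ^ 3)]
    · simp
    · intro c _; rw [← sumA]; exact Finset.sum_congr rfl fun t _ => if_congr Iff.rfl rfl rfl
  have pA2 : (∏ c : Fin b, ∑ t : Finset L, if QA (Sum.inr c : I a b) t then M ^ t.card else 0) =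
      ((1 + M) ^ 3) ^ b := by
    rw [Finset.prod_congr rfl (g := fun _ => (1 + M) ^ 3)]
    · simp
    · intro c _; rw [← sum0]; exact Finset.sum_congr rfl fun t _ => if_congr Iff.rfl rfl rfl
  have pB1 : (∏ c : Fin a, ∑ t : Finset L, if QB (Sum.inl c : I a b) t then M ^ t.card else 0) =
      ((1 + M) ^ 3) ^ a := by
    rw [Finset.prod_congr rfl (g := fun _ => (1 + M) ^ 3)]
    · simp
    · intro c _; rw [← sum0]; exact Finset.sum_congr rfl fun t _ => if_congr Iff.rfl rfl rfl
  have pB2 : (∏ c : Fin b, ∑ t : Finset L, if QB (Sum.inr c : I a b) t then M ^ t.card else 0) =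
      (2 * (1 + M) ^ 3 - 1) ^ b := by
    rw [Finset.prod_congr rfl (g := fun _ => 2 * (1 + M) ^ 3 - 1)]
    · simp
    · intro c _; rw [← sumB]; exact Finset.sum_congr rfl fun t _ => if_congr Iff.rfl rfl rfl
  have p01 : (∏ c : Fin a, ∑ t : Finset L, if Q0 (Sum.inl c : I a b) t then M ^ t.card else 0) =
      ((1 + M) ^ 3) ^ a := by
    rw [Finset.prod_congr rfl (g := fun _ => (1 + M) ^ 3)]
    · simp
    · intro c _; rw [← sum0]; exact Finset.sum_congr rfl fun t _ => if_congr Iff.rfl rfl rfl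
  have p02 : (∏ c : Fin b, ∑ t : Finset L, if Q0 (Sum.inr c : I a b) t then M ^ t.card else 0) =
      ((1 + M) ^ 3) ^ b := by
    rw [Finset.prod_congr rfl (g := fun _ => (1 + M) ^ 3)]
    · simp
    · intro c _; rw [← sum0]; exact Finset.sum_congr rfl fun t _ => if_congr Iff.rfl rfl rfl
  rw [pA1, pA2] at hA
  rw [pB1, pB2] at hB
  rw [p01, p02] at h0
  unfold val
  rw [← hA, ← hB, ← h0]
  symm
  apply Nat.sub_eq_of_eq_add
  rw [← Finset.sum_add_distrib, ← Finset.sum_add_distrib]
  refine Finset.sum_congr rfl fun s _ => ?_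
  have hb := both_iff s
  have hc := indep_cases s
  have ha := PA_indep s
  have hb' := PB_indep s
  by_cases h1 : ∀ i, QA i (slice s i) <;> by_cases h2 : ∀ i, QB i (slice s i)
  · rw [if_pos h1, if_pos h2, if_pos (ha h1), if_pos (hb.2 ⟨h1, h2⟩)]
  · rw [if_pos h1, if_neg h2, if_pos (ha h1), if_neg (fun h => h2 (hb.1 h).2)]
  · rw [if_neg h1, if_pos h2, if_pos (hb' h2), if_neg (fun h => h1 (hb.1 h).1)]
    simp
  · rw [if_neg h1, if_neg h2, if_neg (fun h => (hc h).elim h1 h2),
      if_neg (fun h => h1 (hb.1 h).1)]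

/-- digit extraction -/
lemma digit (B : ℕ) (f : ℕ → ℕ) (hf : ∀ k, f k < B) (K j : ℕ) (hj : j < K) :
    (∑ k ∈ Finset.range K, f k * B ^ k) / B ^ j % B = f j := by
  induction j generalizing f K with
  | zero =>
    obtain ⟨K, rfl⟩ : ∃ K', K = K' + 1 := ⟨K - 1, by omega⟩
    rw [Finset.sum_range_succ']
    simp only [pow_zero, mul_one, Nat.div_one]
    have : ∑ k ∈ Finset.range K, f (k + 1) * B ^ (k + 1) =
        B * ∑ k ∈ Finset.range K, f (k + 1) * B ^ k := by
      rw [Finset.mul_sum]; refine Finset.sum_congr rfl fun k _ => by ring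
    rw [this, Nat.mul_add_mod, Nat.mod_eq_of_lt (hf 0)]
  | succ j ih =>
    obtain ⟨K, rfl⟩ : ∃ K', K = K' + 1 := ⟨K - 1, by omega⟩
    rw [Finset.sum_range_succ']
    simp only [pow_zero, mul_one]
    have : ∑ k ∈ Finset.range K, f (k + 1) * B ^ (k + 1) =
        B * ∑ k ∈ Finset.range K, f (k + 1) * B ^ k := by
      rw [Finset.mul_sum]; refine Finset.sum_congr rfl fun k _ => by ring
    have hB : 0 < B := lt_of_le_of_lt (Nat.zero_le _) (hf 0)
    rw [this, pow_succ', ← Nat.div_div_eq_div_mul, Nat.mul_add_div hB,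
      Nat.div_eq_of_lt (hf 0), Nat.add_zero]
    exact ih (fun k => f (k + 1)) (fun k => hf (k + 1)) K (by omega)

lemma card_V : Fintype.card (V a b) = (a + b) * 6 := by simp

/-- number of independent sets of size k -/
noncomputable def N (a b k : ℕ) : ℕ :=
  {s : Finset (V a b) | (G a b).IsIndepSet (s : Set (V a b)) ∧ s.card = k}.ncard

open Classical in
lemma N_eq_card (k : ℕ) :
    N a b k = (univ.filter (fun s : Finset (V a b) => (G a b).IsIndepSet (s : Set (V a b)) ∧ s.card = k)).card := by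
  unfold N
  rw [← Set.ncard_coe_finset]
  congr 1
  ext s; simp

lemma N_lt (hab : (a + b) * 6 < 1604) (k : ℕ) : N a b k < M := by
  classical
  rw [N_eq_card]
  refine lt_of_le_of_lt (Finset.card_filter_le _ _) ?_
  rw [Finset.card_univ, Fintype.card_finset, card_V]
  unfold M
  exact Nat.pow_lt_pow_right (by norm_num) hab

lemma sum_N : (∑ k ∈ Finset.range ((a + b) * 6 + 1), N a b k * M ^ k) = val a b := by
  classical
  rw [← total]
  rw [← Finset.sum_fiberwise_of_maps_to (s := univ) (t := Finset.range ((a + b) * 6 + 1))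
    (g := fun s : Finset (V a b) => s.card)]
  · refine Finset.sum_congr rfl fun k _ => ?_
    rw [N_eq_card, ← Finset.sum_filter, Finset.filter_filter]
    rw [Finset.sum_congr rfl (g := fun _ => M ^ k)]
    · rw [Finset.sum_const, smul_eq_mul]
      congr 2
      ext s; simp [and_comm]
    · intro s hs
      simp only [mem_filter] at hs
      rw [hs.2.1]
  · intro s _
    have := Finset.card_le_univ s
    rw [card_V] at this
    simp only [Finset.mem_range]; omega

lemma N_digit (hab : (a + b) * 6 < 1604) (k : ℕ) (hk : k < (a + b) * 6 + 1) :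
    N a b k = val a b / M ^ k % M := by
  rw [← sum_N, digit M (N a b) (N_lt hab) _ k hk]

lemma dip_left : N 91 176 433 < N 91 176 432 := by
  rw [N_digit (by norm_num) 433 (by norm_num), N_digit (by norm_num) 432 (by norm_num)]
  decide +kernel

lemma dip_right : N 91 176 433 < N 91 176 434 := by
  rw [N_digit (by norm_num) 433 (by norm_num), N_digit (by norm_num) 434 (by norm_num)]
  decide +kernel

lemma no_isolated (v : V a b) : ∃ w : V a b, (G a b).Adj v w :=
  ⟨(v.1, v.2.1, !v.2.2), Or.inl ⟨rfl, by simp, Or.inr rfl⟩⟩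

lemma exists_nbr (s : Finset (V a b)) (hs : (G a b).IsIndepSet (s : Set (V a b))) (v : V a b)
    (hv : ¬ (G a b).IsIndepSet (insert v (s : Set (V a b)))) : ∃ w ∈ s, adj v w := by
  by_contra hcon
  push Not at hcon
  apply hv
  intro c ha d hb hab hadj
  rcases ha with rfl | ha <;> rcases hb with rfl | hb
  · exact hab rfl
  · exact hcon d hb hadj
  · exact hcon c ha ((G a b).adj_symm hadj)
  · exact hs ha hb hab hadj

/-- every maximal independent set has 3(a+b) vertices -/
lemma card_maximal (s : Finset (V a b)) (hs : (G a b).IsIndepSet (s : Set (V a b)))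
    (hmax : ∀ v : V a b, v ∉ s → ¬ (G a b).IsIndepSet (insert v (s : Set (V a b)))) : s.card = (a + b) * 3 := by
  have hind := (indep_iff s).1 hs
  have hcard : (univ : Finset (I a b × Fin 3)).card = (a + b) * 3 := by simp
  rw [← hcard]
  refine Finset.card_bij (fun v _ => (v.1, v.2.1)) (fun _ _ => mem_univ _) ?_ ?_
  · rintro ⟨i, j, c⟩ ha ⟨i', j', c'⟩ hb h
    simp only [Prod.mk.injEq] at h
    obtain ⟨rfl, rfl⟩ := h
    by_cases hbb : c = c'
    · rw [hbb]
    · exact absurd (Or.inl ⟨rfl, hbb, Or.inr rfl⟩) (hind _ ha _ hb)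
  · rintro ⟨i, j⟩ _
    by_cases hy : ((i, j, false) : V a b) ∈ s
    · exact ⟨_, hy, rfl⟩
    by_cases hx : ((i, j, true) : V a b) ∈ s
    · exact ⟨_, hx, rfl⟩
    exfalso
    obtain ⟨⟨i1, j1, b1⟩, hw, hadj⟩ := exists_nbr s hs _ (hmax _ hy)
    obtain ⟨⟨i2, j2, b2⟩, hu, hadj2⟩ := exists_nbr s hs _ (hmax _ hx)
    rcases hadj with ⟨h1, h2, h3⟩ | ⟨h1, _, _⟩
    · simp only at h1 h2 h3
      subst h1
      have hb1 : b1 = true := by simpa using h2
      subst hb1
      rcases h3 with h3 | h3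
      · apply hind _ hw _ hu
        rcases hadj2 with ⟨g1, g2, _⟩ | ⟨_, g2, g3⟩
        · exact Or.inl ⟨g1, g2, Or.inl h3⟩
        · exact Or.inr ⟨rfl, g2, g3⟩
      · subst h3
        exact hx hw
    · simp at h1

def yset (a b : ℕ) : Finset (V a b) := univ.filter (fun v => v.2.2 = false)

lemma yset_indep : (G a b).IsIndepSet (yset a b : Set (V a b)) := by
  rw [indep_iff]
  intro v hv w hw hadj
  simp only [yset, mem_filter, mem_univ, true_and] at hv hw
  rcases hadj with ⟨_, h2, _⟩ | ⟨h1, _, _⟩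
  · exact h2 (hv.trans hw.symm)
  · rw [hv] at h1; simp at h1

lemma yset_max (v : V a b) (hv : v ∉ yset a b) : ¬ (G a b).IsIndepSet (insert v (yset a b : Set (V a b))) := by
  intro h
  have hv' : v.2.2 = true := by simpa [yset] using hv
  have hadj : (G a b).Adj v (v.1, v.2.1, false) := Or.inl ⟨rfl, by simp [hv'], Or.inr rfl⟩
  refine h (Set.mem_insert _ _) (Set.mem_insert_of_mem _ ?_) hadj.ne hadj
  simp [yset]

end Pool.Agent.Lib.MP_e4c5f9_co
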